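import Pool.Agent.H13.UqF

set_option autoImplicit false

open Filter Topology

namespace Pool.Agent.Results.MP_618f8d_co.AlmostAll

/-- `m_n = (n choose 2) - ⌊n log n / log 2⌋` -/
noncomputable def m (n : ℕ) : ℕ := n.choose 2 - ⌊(n : ℝ) * Real.log n / Real.log 2⌋₊

/-- `u(G)`: the number of unique (spanning) subgraphs of `G`. A spanning subgraph of `G` is a graph
`F ≤ G` on the same vertex set; it is unique if no other subgraph of `G` is isomorphic to it. -/
noncomputable def u {n : ℕ} (G : SimpleGraph (Fin n)) : ℕ :=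
  Set.ncard {F : SimpleGraph (Fin n) | F ≤ G ∧
    ∀ F' : SimpleGraph (Fin n), F' ≤ G → Nonempty (F ≃g F') → F' = F}

/-- Both questions, with every constant `c < 1`: almost all graphs on `n` labelled vertices with
`m_n` edges have at least `c * 2 ^ m_n` unique subgraphs; in particular for all large `n` such
graphs exist. -/
theorem result :
    (∀ c : ℝ, c < 1 → Tendsto (fun n : ℕ =>
      (Nat.card {G : SimpleGraph (Fin n) //
          G.edgeSet.ncard = m n ∧ c * 2 ^ m n ≤ (u G : ℝ)} : ℝ) /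
        (Nat.card {G : SimpleGraph (Fin n) // G.edgeSet.ncard = m n} : ℝ)) atTop (𝓝 1)) ∧
    (∀ c : ℝ, c < 1 → ∀ᶠ n : ℕ in atTop, ∃ G : SimpleGraph (Fin n),
      G.edgeSet.ncard = m n ∧ c * 2 ^ m n ≤ (u G : ℝ)) := by
  have hm : m = Pool.Agent.H13.Uq.mm := by
    funext n
    unfold m Pool.Agent.H13.Uq.mm Real.logb
    rw [mul_div_assoc]
  rw [hm]
  exact ⟨fun c hc => Pool.Agent.H13.Uq.almost_all hc,
    fun c hc => Pool.Agent.H13.Uq.exists_graph hc⟩

end Pool.Agent.Results.MP_618f8d_co.AlmostAll
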